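import Pool.Agent.Lib.MP_df705a_gt.Mg.G007
import Pool.Agent.Lib.MP_df705a_gt.Mg.G013

/-!
# R: integration in a parametrization
-/

open scoped Manifold ContDiff Topology
open Set Bundle Module Filter MeasureTheory

noncomputable section

set_option linter.unusedSectionVars false

namespace Pool.Agent.Lib.MP_df705a_gt.Coll

open Pool.Agent.Lib.MP_df705a_gt.Twist Pool.Agent.Lib.MP_df705a_gt.Perm
open Pool.Agent.Lib.MP_df705a_gt.Circ (cf Para)

variable {E : Type*} [NormedAddCommGroup E] [NormedSpace ℝ E] [FiniteDimensional ℝ E]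
  {M : Type*} [TopologicalSpace M] [ChartedSpace E M] [IsManifold 𝓘(ℝ, E) ∞ M]
  [MeasurableSpace E] [BorelSpace E] [MeasurableSpace M] [BorelSpace M]
  [CompactSpace M] [T2Space M]
  {g : Met E M} {μ : Measure M}

namespace ParaMainAux

theorem tau_bij {E' : Type*} [NormedAddCommGroup E'] [NormedSpace ℝ E'] [FiniteDimensional ℝ E']
    {σ : E' → M} {q : E'} (hσ : Para E σ q) :
    Function.Bijective (fderiv ℝ (Circ.I2.tau E σ q) q) := by
  have ht : Circ.I2.tau E σ q q ∈ (extChartAt 𝓘(ℝ, E) (σ q)).target :=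
    mem_extChartAt_target (σ q)
  have key : ∀ (D : E' →L[ℝ] E) (S : E →L[ℝ] E) (T : E' →L[ℝ] E), (∀ v, D v = S (T v)) →
      Function.Injective S → Function.Bijective D → Function.Bijective T := by
    intro D S T h1 h2 hb
    refine ⟨fun v w hvw => hb.1 ?_, fun w => ?_⟩
    · rw [h1, h1, hvw]
    · obtain ⟨v, hv⟩ := hb.2 (S w)
      refine ⟨v, h2 ?_⟩
      rw [h1] at hv
      exact hv
  exact key _ _ _ (Circ.I2.deriv_eq hσ).self_of_nhds (symm_injective 𝓘(ℝ, E) (σ q) ht) hσ.bij

/-- A parametrization is locally open. -/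
theorem nhds_le {E' : Type*} [NormedAddCommGroup E'] [NormedSpace ℝ E'] [FiniteDimensional ℝ E']
    {σ : E' → M} {q : E'} (hσ : Para E σ q) : 𝓝 (σ q) ≤ map σ (𝓝 q) := by
  have hb := tau_bij hσ
  have : CompleteSpace E' := FiniteDimensional.complete ℝ E'
  have hs := Circ.I2.tau_smooth hσ
  have hs1 : DifferentiableAt ℝ (Circ.I2.tau E σ q) q := hs.differentiableAt (by simp)
  let e : E' ≃L[ℝ] E := (LinearEquiv.ofBijective
    (fderiv ℝ (Circ.I2.tau E σ q) q : E' →ₗ[ℝ] E) hb).toContinuousLinearEquiv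
  have he : (e : E' →L[ℝ] E) = fderiv ℝ (Circ.I2.tau E σ q) q := by
    ext v
    rfl
  have hd : HasFDerivAt (Circ.I2.tau E σ q) (e : E' →L[ℝ] E) q := by
    rw [he]
    exact hs1.hasFDerivAt
  have hn : (∞ : WithTop ℕ∞) ≠ 0 := by simp
  have h1 : ContDiffAt ℝ ∞ (hs.localInverse hd hn) (Circ.I2.tau E σ q q) :=
    hs.to_localInverse hd hn
  have h2 : hs.localInverse hd hn (Circ.I2.tau E σ q q) = q :=
    hs.localInverse_apply_image hd hn
  have h3 : ∀ᶠ z in 𝓝 (Circ.I2.tau E σ q q), Circ.I2.tau E σ q (hs.localInverse hd hn z) = z :=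
    (hs.hasStrictFDerivAt' hd hn).eventually_right_inverse
  have hc : ContinuousAt (extChartAt 𝓘(ℝ, E) (σ q)) (σ q) := continuousAt_extChartAt (σ q)
  have hcG : ContinuousAt (fun p => hs.localInverse hd hn (extChartAt 𝓘(ℝ, E) (σ q) p)) (σ q) :=
    ContinuousAt.comp (g := hs.localInverse hd hn) h1.continuousAt hc
  have h6 : Tendsto (fun p => hs.localInverse hd hn (extChartAt 𝓘(ℝ, E) (σ q) p))
      (𝓝 (σ q)) (𝓝 q) := by
    have h7 := hcG.tendsto
    have h8 : hs.localInverse hd hn (extChartAt 𝓘(ℝ, E) (σ q) (σ q)) = q := h2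
    rwa [h8] at h7
  have h4 : ∀ᶠ p in 𝓝 (σ q), Circ.I2.tau E σ q (hs.localInverse hd hn
      (extChartAt 𝓘(ℝ, E) (σ q) p)) = extChartAt 𝓘(ℝ, E) (σ q) p := hc.eventually h3
  have h5 : ∀ᶠ p in 𝓝 (σ q), σ (hs.localInverse hd hn (extChartAt 𝓘(ℝ, E) (σ q) p)) ∈
      (extChartAt 𝓘(ℝ, E) (σ q)).source := h6.eventually (Circ.I2.near hσ)
  intro s hs'
  have h9 : ∀ᶠ p in 𝓝 (σ q), hs.localInverse hd hn (extChartAt 𝓘(ℝ, E) (σ q) p) ∈ σ ⁻¹' s :=
    h6.eventually hs'
  filter_upwards [h4, h5, extChartAt_source_mem_nhds (I := 𝓘(ℝ, E)) (σ q), h9]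
    with p h10 h11 h12 h13
  have h14 := (extChartAt 𝓘(ℝ, E) (σ q)).injOn h11 h12 h10
  have h15 : σ (hs.localInverse hd hn (extChartAt 𝓘(ℝ, E) (σ q) p)) ∈ s := h13
  rw [h14] at h15
  exact h15

/-- The preimage of a compact set. -/
theorem compact_pre {E' : Type*} [NormedAddCommGroup E'] [NormedSpace ℝ E']
    [FiniteDimensional ℝ E'] {σ : E' → M} {W : Set E'}
    (hW : IsOpen W) (hσ : ∀ q ∈ W, Para E σ q) (hinj : InjOn σ W) {K : Set M}
    (hK : IsCompact K) (hs : K ⊆ σ '' W) : IsCompact (W ∩ σ ⁻¹' K) := by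
  have hc : Continuous (W.domRestrict σ) := continuousOn_iff_continuous_domRestrict.1
    fun q hq => (hσ q hq).smooth.continuousAt.continuousWithinAt
  have hi : Function.Injective (W.domRestrict σ) := injOn_iff_injective.1 hinj
  have ho : IsOpenMap (W.domRestrict σ) := by
    rw [isOpenMap_iff_nhds_le]
    intro a
    have h1 : map (W.domRestrict σ) (𝓝 a) = map σ (𝓝 (a : E')) := by
      have h2 : W.domRestrict σ = σ ∘ Subtype.val := rfl
      rw [h2, ← Filter.map_map, map_nhds_subtype_val, hW.nhdsWithin_eq a.2]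
    rw [h1]
    exact nhds_le (hσ a a.2)
  have hoe : Topology.IsOpenEmbedding (W.domRestrict σ) :=
    Topology.IsOpenEmbedding.of_continuous_injective_isOpenMap hc hi ho
  have h3 : IsCompact (W.domRestrict σ ⁻¹' K) := by
    refine (hoe.isInducing.isCompact_preimage_iff ?_).2 hK
    rw [range_domRestrict]
    exact hs
  have h4 : W ∩ σ ⁻¹' K = Subtype.val '' (W.domRestrict σ ⁻¹' K) := by
    ext q
    constructor
    · rintro ⟨h5, h6⟩
      exact ⟨⟨q, h5⟩, h6, rfl⟩
    · rintro ⟨a, h5, rfl⟩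
      exact ⟨a.2, h5⟩
  rw [h4]
  exact h3.image continuous_subtype_val

end ParaMainAux

/-- A function supported in the image of a parametrization gives an integrable function in the
parametrization.
Proof: `K := W ∩ σ ⁻¹' tsupport f`. The restriction of `σ` to the open set `W` is injective,
continuous and open (locally it is a diffeomorphism: by `para_smooth` and the inverse function
theorem the composition with a chart is a local homeomorphism: `HasStrictFDerivAt.map_nhds_eq`,
for the differential of `para_smooth`, which is bijective by `cf_det_law` or by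
`hσ.bij` as in `I2.pullAt`), so it is an open embedding `W → M` and `K` is the image of the compact
set `tsupport f ⊆ σ '' W` under the continuous inverse: `K` is compact
(`Topology.IsInducing.isCompact_preimage` or `IsOpenEmbedding`). The function
`q ↦ f (σ q) * √ (cf g σ q).det` is continuous on `W` (`Circ.cf_smooth`, `contDiffAt_det`) and
vanishes on `W \ K`, so it is integrable on `W` (as in `integrableOn_chart`). -/
theorem integrableOn_para (g : Met E M) {E' : Type*} [NormedAddCommGroup E'] [NormedSpace ℝ E']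
    [FiniteDimensional ℝ E'] [MeasurableSpace E'] [BorelSpace E'] {σ : E' → M} {W : Set E'}
    (hW : IsOpen W) (hσ : ∀ q ∈ W, Para E σ q) (hinj : InjOn σ W) {f : M → ℝ}
    (hf : Continuous f) (hs : tsupport f ⊆ σ '' W) :
    IntegrableOn (fun q => f (σ q) * √ (cf g σ q).det) W (finBasis ℝ E').addHaar := by
  rw [← integrable_indicator_iff hW.measurableSet]
  refine integrable_aux (finBasis ℝ E').addHaar
    (ParaMainAux.compact_pre hW hσ hinj (isClosed_tsupport f).isCompact hs)
    (T := W) inter_subset_left ?_ ?_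
  · have h1 : ContinuousOn (fun q => f (σ q) * √ (cf g σ q).det) W := by
      intro q hq
      refine ContinuousAt.continuousWithinAt ?_
      have h2 : ContinuousAt (fun q => f (σ q)) q :=
        ContinuousAt.comp (g := f) hf.continuousAt (hσ q hq).smooth.continuousAt
      have h3 : ContDiffAt ℝ ∞ (fun q => (cf g σ q).det) q :=
        contDiffAt_det fun i j => Circ.cf_smooth g (hσ q hq) i j
      exact h2.mul h3.continuousAt.sqrt
    exact h1.congr fun y hy => indicator_of_mem hy _
  · intro q hq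
    by_cases hqW : q ∈ W
    · rw [indicator_of_mem hqW]
      have h2 : σ q ∉ tsupport f := fun h => hq ⟨hqW, h⟩
      rw [image_eq_zero_of_notMem_tsupport h2, zero_mul]
    · exact indicator_of_notMem hqW _

/-- Integration in a parametrization.
Proof: `exists_part E M` and `IsRVol.int_part`: `∫ f dμ = ∑ i ∫ ρ i * f dμ`; by `hμ.chart (z i)` and
`integral_chart_eq` (supports: `tsupport_mul_subset_left`, `tsupport_mul_subset_right`) the `i`-th
term is `∫ q in W, (ρ i * f) (σ q) * √ det`; sum with `integral_finset_sum` and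
`integrableOn_para` applied to the functions `ρ i * f`. -/
theorem IsRVol.para (hμ : IsRVol g μ) {E' : Type*} [NormedAddCommGroup E'] [NormedSpace ℝ E']
    [FiniteDimensional ℝ E'] [MeasurableSpace E'] [BorelSpace E'] {σ : E' → M} {W : Set E'}
    (hW : IsOpen W) (hσ : ∀ q ∈ W, Para E σ q) (hinj : InjOn σ W) {f : M → ℝ}
    (hf : Continuous f) (hs : tsupport f ⊆ σ '' W) :
    ∫ p, f p ∂μ = ∫ q in W, f (σ q) * √ (cf g σ q).det ∂(finBasis ℝ E').addHaar := by
  obtain ⟨N, z, ρ, h1, h2, h3, h4⟩ := exists_part E M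
  have hρ : ∀ i, Continuous (ρ i) := fun i => (h1 i).continuous
  have hc : ∀ i, Continuous (fun p => ρ i p * f p) := fun i => (hρ i).mul hf
  have hs1 : ∀ i, tsupport (fun p => ρ i p * f p) ⊆ (extChartAt 𝓘(ℝ, E) (z i)).source :=
    fun i => tsupport_part (h3 i)
  have hs2 : ∀ i, tsupport (fun p => ρ i p * f p) ⊆ σ '' W :=
    fun i => (tsupport_mul_subset_right (f := ρ i) (g := f)).trans hs
  have h5 : ∀ i, ∫ p, ρ i p * f p ∂μ = ∫ q in W, (ρ i (σ q) * f (σ q)) * √ (cf g σ q).det
      ∂(finBasis ℝ E').addHaar := by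
    intro i
    rw [hμ.chart (z i) (fun p => ρ i p * f p) (hc i) (hs1 i)]
    exact integral_chart_eq g hW hσ hinj (z i) (f := fun p => ρ i p * f p) (hs2 i) (hs1 i)
  have h6 : ∀ i, IntegrableOn (fun q => (ρ i (σ q) * f (σ q)) * √ (cf g σ q).det) W
      (finBasis ℝ E').addHaar := fun i =>
    integrableOn_para g hW hσ hinj (f := fun p => ρ i p * f p) (hc i) (hs2 i)
  rw [hμ.int_part hρ h4 hf, Finset.sum_congr rfl fun i _ => h5 i,
    ← integral_finsetSum _ fun i _ => h6 i]
  refine integral_congr_ae (Eventually.of_forall fun q => ?_)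
  change ∑ i, (ρ i (σ q) * f (σ q)) * √ (cf g σ q).det = f (σ q) * √ (cf g σ q).det
  rw [← Finset.sum_mul, ← Finset.sum_mul, h4, one_mul]

end Pool.Agent.Lib.MP_df705a_gt.Coll
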