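import Pool.Agent.Lib.MP_df705a_gt.Mg.G007
import Pool.Agent.Lib.MP_df705a_gt.Coll.R.ParaMain
import Pool.Agent.Lib.MP_df705a_gt.Mg.G013

/-!
# Module R: `exists_rvol` (Exists), `IsRVol.para` (ParaMain), `IsRVol.green` (Green), `IsRVol.pos`,
`IsRVol.dens`, `IsRVol.scale` (PosDens)
-/
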